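import Pool.Agent.Lib.MP_b4205f_al.CH.Defs
import Mathlib.MeasureTheory.Measure.Lebesgue.Integral
import Mathlib.MeasureTheory.Integral.Prod
import Mathlib.MeasureTheory.Constructions.BorelSpace.Metric
import Mathlib.MeasureTheory.Function.SpecialFunctions.Basic
import Mathlib.MeasureTheory.Group.LIntegral

/-!
Module REC of project CHAIN (helper23).
-/

namespace Pool.Agent.Lib.MP_b4205f_al.H23

open MeasureTheory Pool.Agent.Lib.MP_b4205f_al.CH

lemma measurable_ss (p n : ℕ) : Measurable (ss p n) := by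
  unfold ss
  refine Measurable.ite measurableSet_Iic ?_ measurable_const
  exact ((((measurable_const.div measurable_id).pow_const _).sub_const _).const_mul _)

lemma measurable_ph (p n : ℕ) : Measurable (ph p n) := by
  unfold ph
  refine Measurable.ite measurableSet_Iic ?_ measurable_const
  exact (measurable_const.div (measurable_id.const_mul _)).sub_const _

lemma ss_nonneg {p n : ℕ} (hp : 2 ≤ p) (hn : 2 ≤ n) (y : ℝ) (hy : 0 < y) : 0 ≤ ss p n y := by
  have hp' : (0 : ℝ) < p := by exact_mod_cast (by omega : 0 < p)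
  have hn' : (0 : ℝ) < n := by exact_mod_cast (by omega : 0 < n)
  have hM : 0 < MM p n := by unfold MM; positivity
  have hb : 0 < be p n := by unfold be; positivity
  unfold ss
  split_ifs with h
  · have h1 : (1 : ℝ) ≤ MM p n / y := by rw [le_div_iff₀ hy]; linarith
    have h2 : (1 : ℝ) ≤ (MM p n / y) ^ (1 + be p n) := Real.one_le_rpow h1 (by linarith)
    have h3 : 0 ≤ be p n / ((1 + be p n) * MM p n) := by positivity
    exact mul_nonneg h3 (by linarith)
  · exact le_rfl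

/-- affine change of variables -/
lemma lintegral_affine (a b : ℝ) (ha : a ≠ 0) (g : ℝ → ENNReal) (hg : Measurable g) :
    ∫⁻ w, g (a * w - b) = ENNReal.ofReal |a⁻¹| * ∫⁻ t, g t := by
  have hg' : Measurable (fun y => g (y - b)) := hg.comp (measurable_id.sub_const b)
  have h1 : ∫⁻ w, g (a * w - b) = ∫⁻ y, g (y - b) ∂(Measure.map (a * ·) volume) :=
    (lintegral_map (f := fun y => g (y - b)) (g := fun w => a * w) hg'
      (measurable_const_mul a)).symm
  rw [h1, Real.map_volume_mul_left ha, lintegral_smul_measure]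
  congr 1
  exact lintegral_sub_right_eq_self g b

lemma vol_T : volume {z : ℝ | 0 < |z| ∧ |z| ≤ 1} = ENNReal.ofReal 2 := by
  have h : {z : ℝ | 0 < |z| ∧ |z| ≤ 1} = Set.Icc (-1) 1 \ {0} := by
    ext z
    simp only [Set.mem_ofPred_eq, abs_pos, abs_le, Set.mem_sdiff, Set.mem_Icc,
      Set.mem_singleton_iff]
    tauto
  rw [h, measure_sdiff_null (by simp), Real.volume_Icc]
  norm_num

/-- the integral of an even function beyond `1`. -/
lemma lint_even (f : ℝ → ENNReal) (hf : Measurable f) :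
    ∫⁻ w in {w : ℝ | 1 < |w|}, f |w| = 2 * ∫⁻ w in Set.Ioi 1, f w := by
  have h : {w : ℝ | 1 < |w|} = Set.Ioi 1 ∪ Set.Iio (-1) := by
    ext w
    simp only [Set.mem_ofPred_eq, lt_abs, Set.mem_union, Set.mem_Ioi, Set.mem_Iio]
    constructor
    · rintro (h | h)
      · left; exact h
      · right; linarith
    · rintro (h | h)
      · left; exact h
      · right; linarith
  have hd : Disjoint (Set.Ioi (1 : ℝ)) (Set.Iio (-1)) := by
    rw [Set.disjoint_left]
    intro x hx hx'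
    simp only [Set.mem_Ioi, Set.mem_Iio] at hx hx'
    linarith
  rw [h, lintegral_union measurableSet_Iio hd, two_mul]
  congr 1
  · refine setLIntegral_congr_fun measurableSet_Ioi ?_
    intro x hx
    simp only [Set.mem_Ioi] at hx
    simp only [abs_of_pos (by linarith : (0:ℝ) < x)]
  · have h2 := (Measure.measurePreserving_neg (volume : Measure ℝ)).setLIntegral_comp_preimage
      (s := Set.Ioi 1) measurableSet_Ioi (f := fun w => f w) hf
    rw [← h2]
    have h3 : (Neg.neg ⁻¹' Set.Ioi (1 : ℝ)) = Set.Iio (-1) := by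
      ext x
      simp only [Set.mem_preimage, Set.mem_Ioi, Set.mem_Iio]
      constructor <;> intro h <;> linarith
    rw [h3]
    refine setLIntegral_congr_fun measurableSet_Iio ?_
    intro x hx
    simp only [Set.mem_Iio] at hx
    simp only [abs_of_neg (by linarith : x < 0)]

/-- the box part -/
lemma part1 {p n : ℕ} (hp : 2 ≤ p) (hn : 2 ≤ n) (hpn : p < n ^ 2) :
    ENNReal.ofReal (4 * ∫ y in (1 : ℝ)..MM p n, ss p n y) ≤
      ∫⁻ q in {q : ℝ × ℝ | 1 < |q.1| ∧ 0 < |q.2| ∧ |q.2| ≤ 1}, ENNReal.ofReal (ss p n |q.1|) := by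
  have hs := measurable_ss p n
  have hset : {q : ℝ × ℝ | 1 < |q.1| ∧ 0 < |q.2| ∧ |q.2| ≤ 1} =
      {w : ℝ | 1 < |w|} ×ˢ {z : ℝ | 0 < |z| ∧ |z| ≤ 1} := by
    ext q; simp [Set.mem_prod]
  have hM : 1 ≤ MM p n := by
    unfold MM
    rw [le_div_iff₀ (by exact_mod_cast (by omega : 0 < p))]
    have : (p : ℝ) < (n : ℝ) ^ 2 := by exact_mod_cast hpn
    linarith
  have hm : Measurable (fun q : ℝ × ℝ => ENNReal.ofReal (ss p n |q.1|)) :=
    (hs.comp (measurable_fst.abs)).ennreal_ofReal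
  rw [hset, Measure.volume_eq_prod, ← Measure.prod_restrict, lintegral_prod _ hm.aemeasurable]
  simp only [lintegral_const, Measure.restrict_apply_univ, vol_T]
  rw [lintegral_mul_const' _ _ ENNReal.ofReal_ne_top,
    lint_even (fun w => ENNReal.ofReal (ss p n w)) hs.ennreal_ofReal]
  have h4 : ENNReal.ofReal (∫ y in (1 : ℝ)..MM p n, ss p n y) ≤
      ∫⁻ w in Set.Ioi 1, ENNReal.ofReal (ss p n w) := by
    rw [intervalIntegral.integral_of_le hM,
      integral_eq_lintegral_of_nonneg_ae]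
    · refine (ENNReal.ofReal_toReal_le).trans ?_
      exact lintegral_mono_set Set.Ioc_subset_Ioi_self
    · refine (ae_restrict_iff' measurableSet_Ioc).2 (Filter.Eventually.of_forall ?_)
      intro x hx
      exact ss_nonneg hp hn x (by linarith [hx.1])
    · exact hs.aestronglyMeasurable
  rw [ENNReal.ofReal_mul (by norm_num)]
  have h5 : ENNReal.ofReal 4 = 2 * ENNReal.ofReal 2 := by
    rw [← ENNReal.ofReal_ofNat 2, ← ENNReal.ofReal_mul (by norm_num)]; norm_num
  rw [h5, mul_right_comm]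
  gcongr

open Classical in
/-- the summand of index `m` -/
noncomputable def gm (p n K : ℕ) (z : ℝ) (m : ℤ) (t : ℝ) : ENNReal :=
  if HH p n K z t ∧ |z| < |(t + (p : ℝ) * (m : ℝ) * z) / (n : ℝ) ^ 2| then
    ENNReal.ofReal (ss p n |(t + (p : ℝ) * (m : ℝ) * z) / (n : ℝ) ^ 2|) else 0

lemma measurable_gm (h2 : MEAS_S) (p n K : ℕ) (z : ℝ) (m : ℤ) : Measurable (gm p n K z m) := by
  have hl : Measurable (fun t : ℝ => |(t + (p : ℝ) * (m : ℝ) * z) / (n : ℝ) ^ 2|) :=
    ((measurable_id.add_const _).div_const _).abs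
  have hz : Measurable (fun t : ℝ => (z, t)) := measurable_const.prodMk measurable_id
  have hA : MeasurableSet {t : ℝ | HH p n K z t} := hz (h2 p n K).1
  unfold gm
  refine Measurable.ite ?_ (((measurable_ss p n).comp hl).ennreal_ofReal) measurable_const
  exact hA.inter (measurableSet_lt measurable_const hl)

/-- the set of the chains with `1 < |z|` -/
def P2 (p n K : ℕ) : Set (ℝ × ℝ) := {q | HH p n (K + 1) q.1 q.2} \ {q | |q.2| ≤ 1}

lemma mem_P2 {p n K : ℕ} {w z : ℝ} (hz : 1 < |z|) (hw : |z| < |w|) (m : ℤ)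
    (hm : m ∈ Finset.Icc (-(BB n : ℤ)) (BB n : ℤ)) (h : HH p n K z (nxt p n m w z)) :
    (w, z) ∈ P2 p n K := by
  refine ⟨Or.inr ⟨hz, hw, m, hm, h⟩, ?_⟩
  simp only [Set.mem_ofPred_eq, not_le]
  exact hz

/-- the current exponent is unique -/
lemma uniq_m (h2 : MEAS_S) {p n K : ℕ} (hp : 2 ≤ p) {w z : ℝ} (m m' : ℤ)
    (h : HH p n K z (nxt p n m w z)) (h' : HH p n K z (nxt p n m' w z)) : m = m' := by
  have h1 := (h2 p n K).2.2.2 _ _ h
  have h3 := (h2 p n K).2.2.2 _ _ h'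
  by_contra hne
  have hz : 0 < |z| := by linarith [h1.1]
  have hd : nxt p n m w z - nxt p n m' w z = (p : ℝ) * ((m' : ℝ) - m) * z := by
    unfold nxt; ring
  have h4 : |nxt p n m w z - nxt p n m' w z| < 2 * |z| := by
    have := abs_sub (nxt p n m w z) (nxt p n m' w z)
    linarith [h1.2.2, h3.2.2]
  rw [hd, abs_mul, abs_mul] at h4
  have h5 : (2 : ℝ) ≤ |(p : ℝ)| := by
    rw [abs_of_nonneg (by positivity)]; exact_mod_cast hp
  have h6 : (1 : ℝ) ≤ |(m' : ℝ) - m| := by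
    have : (1 : ℤ) ≤ |m' - m| := Int.one_le_abs (by omega)
    exact_mod_cast this
  have h7 : (2 : ℝ) * 1 ≤ |(p : ℝ)| * |(m' : ℝ) - m| := by gcongr
  nlinarith

lemma gm_comp (p n K : ℕ) (hn : 2 ≤ n) (z w : ℝ) (m : ℤ) :
    gm p n K z m ((n : ℝ) ^ 2 * w - (p : ℝ) * (m : ℝ) * z) =
      @ite _ (HH p n K z (nxt p n m w z) ∧ |z| < |w|) (Classical.propDecidable _)
        (ENNReal.ofReal (ss p n |w|)) 0 := by
  have hn' : (n : ℝ) ^ 2 ≠ 0 := by positivity
  have e : ((n : ℝ) ^ 2 * w - (p : ℝ) * (m : ℝ) * z + (p : ℝ) * (m : ℝ) * z) / (n : ℝ) ^ 2 = w := by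
    rw [sub_add_cancel, mul_div_cancel_left₀ _ hn']
  unfold gm
  rw [e]
  by_cases h : HH p n K z (nxt p n m w z) ∧ |z| < |w|
  · rw [if_pos h]
    exact if_pos h
  · rw [if_neg h]
    exact if_neg h

lemma sum_gm_le (h2 : MEAS_S) {p n K : ℕ} (hp : 2 ≤ p) (hn : 2 ≤ n) {z : ℝ} (hz : 1 < |z|)
    (w : ℝ) :
    ∑ m ∈ Finset.Icc (-(BB n : ℤ)) (BB n : ℤ),
      gm p n K z m ((n : ℝ) ^ 2 * w - (p : ℝ) * (m : ℝ) * z) ≤
    (P2 p n K).indicator (fun q => ENNReal.ofReal (ss p n |q.1|)) (w, z) := by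
  classical
  simp only [gm_comp p n K hn]
  by_cases hex : ∃ m ∈ Finset.Icc (-(BB n : ℤ)) (BB n : ℤ),
      HH p n K z (nxt p n m w z) ∧ |z| < |w|
  · obtain ⟨m, hm, hH, hw⟩ := hex
    rw [Finset.sum_eq_single_of_mem m hm]
    · rw [if_pos ⟨hH, hw⟩, Set.indicator_of_mem (mem_P2 hz hw m hm hH)]
    · intro m' _ hne
      rw [if_neg]
      rintro ⟨h', _⟩
      exact hne (uniq_m h2 hp m' m h' hH)
  · push Not at hex
    rw [Finset.sum_eq_zero]
    · exact zero_le
    · intro m hm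
      rw [if_neg]
      rintro ⟨h, hw⟩
      exact absurd hw (not_lt.2 (hex m hm h))

lemma pt_enn (h1 : PT_S) (h2 : MEAS_S) {p n K : ℕ} (hp : 2 ≤ p) (hn : 2 ≤ n) (hpn : p < n ^ 2)
    {z t : ℝ} (h : HH p n K z t) :
    ENNReal.ofReal (ss p n |z|) ≤ ENNReal.ofReal (ph p n |z|) +
      ∑ m ∈ Finset.Icc (-(BB n : ℤ)) (BB n : ℤ), ENNReal.ofReal (1 / (n : ℝ) ^ 2) *
        gm p n K z m t := by
  have h3 := (h2 p n K).2.2.2 _ _ h
  refine (ENNReal.ofReal_le_ofReal (h1 p n hp hn hpn z t h3.1 h3.2.2)).trans ?_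
  refine ENNReal.ofReal_add_le.trans ?_
  gcongr
  rw [ENNReal.ofReal_sum_of_nonneg]
  · refine Finset.sum_le_sum ?_
    intro m _
    rw [ENNReal.ofReal_mul (by positivity)]
    gcongr
    unfold gm
    by_cases hc : |z| < |(t + (p : ℝ) * (m : ℝ) * z) / (n : ℝ) ^ 2|
    · rw [if_pos hc, if_pos ⟨h, hc⟩]
    · rw [if_neg hc]; simp
  · intro m _
    refine mul_nonneg (by positivity) ?_
    split_ifs with hc
    · exact ss_nonneg hp hn _ (by linarith [h3.1])
    · exact le_rfl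

lemma section_le (h1 : PT_S) (h2 : MEAS_S) {p n K : ℕ} (hp : 2 ≤ p) (hn : 2 ≤ n)
    (hpn : p < n ^ 2) (z : ℝ) :
    ∫⁻ t, {q : ℝ × ℝ | HH p n K q.1 q.2}.indicator (fun q => ENNReal.ofReal (ss p n |q.1|)) (z, t) ≤
    (∫⁻ t, {q : ℝ × ℝ | HH p n K q.1 q.2}.indicator
      (fun q => ENNReal.ofReal (ph p n |q.1|)) (z, t)) +
    ∫⁻ w, (P2 p n K).indicator (fun q => ENNReal.ofReal (ss p n |q.1|)) (w, z) := by
  classical
  have hAm : MeasurableSet {q : ℝ × ℝ | HH p n K q.1 q.2} := (h2 p n K).1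
  have hzt : Measurable (fun t : ℝ => (z, t)) := measurable_const.prodMk measurable_id
  by_cases hz : 1 < |z|
  · have hn' : (n : ℝ) ^ 2 ≠ 0 := by positivity
    have hpt : ∀ t : ℝ, {q : ℝ × ℝ | HH p n K q.1 q.2}.indicator
        (fun q => ENNReal.ofReal (ss p n |q.1|)) (z, t) ≤
        {q : ℝ × ℝ | HH p n K q.1 q.2}.indicator (fun q => ENNReal.ofReal (ph p n |q.1|)) (z, t) +
        ∑ m ∈ Finset.Icc (-(BB n : ℤ)) (BB n : ℤ), ENNReal.ofReal (1 / (n : ℝ) ^ 2) *
          gm p n K z m t := by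
      intro t
      by_cases h : HH p n K z t
      · have hmem : (z, t) ∈ {q : ℝ × ℝ | HH p n K q.1 q.2} := h
        rw [Set.indicator_of_mem hmem, Set.indicator_of_mem hmem]
        exact pt_enn h1 h2 hp hn hpn h
      · have hmem : (z, t) ∉ {q : ℝ × ℝ | HH p n K q.1 q.2} := h
        rw [Set.indicator_of_notMem hmem]
        exact zero_le
    refine (lintegral_mono hpt).trans ?_
    have hmph : Measurable (fun t : ℝ => {q : ℝ × ℝ | HH p n K q.1 q.2}.indicator
        (fun q => ENNReal.ofReal (ph p n |q.1|)) (z, t)) := by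
      have : Measurable (fun q : ℝ × ℝ => ENNReal.ofReal (ph p n |q.1|)) :=
        ((measurable_ph p n).comp (measurable_fst.abs)).ennreal_ofReal
      exact (this.indicator hAm).comp hzt
    rw [lintegral_add_left hmph, lintegral_finsetSum _
      (fun m _ => (measurable_gm h2 p n K z m).const_mul _)]
    gcongr
    calc ∑ m ∈ Finset.Icc (-(BB n : ℤ)) (BB n : ℤ),
          ∫⁻ t, ENNReal.ofReal (1 / (n : ℝ) ^ 2) * gm p n K z m t
        = ∑ m ∈ Finset.Icc (-(BB n : ℤ)) (BB n : ℤ),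
          ∫⁻ w, gm p n K z m ((n : ℝ) ^ 2 * w - (p : ℝ) * (m : ℝ) * z) := by
          refine Finset.sum_congr rfl ?_
          intro m _
          rw [lintegral_const_mul _ (measurable_gm h2 p n K z m),
            lintegral_affine _ _ hn' _ (measurable_gm h2 p n K z m)]
          congr 2
          rw [abs_of_nonneg (by positivity), one_div]
      _ = ∫⁻ w, ∑ m ∈ Finset.Icc (-(BB n : ℤ)) (BB n : ℤ),
            gm p n K z m ((n : ℝ) ^ 2 * w - (p : ℝ) * (m : ℝ) * z) := by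
          rw [lintegral_finsetSum]
          intro m _
          exact (measurable_gm h2 p n K z m).comp ((measurable_const_mul _).sub_const _)
      _ ≤ _ := lintegral_mono (fun w => sum_gm_le h2 hp hn hz w)
  · have h0 : ∀ t : ℝ, {q : ℝ × ℝ | HH p n K q.1 q.2}.indicator
        (fun q => ENNReal.ofReal (ss p n |q.1|)) (z, t) = 0 := by
      intro t
      have hmem : (z, t) ∉ {q : ℝ × ℝ | HH p n K q.1 q.2} :=
        fun h => hz ((h2 p n K).2.2.2 _ _ h).1
      exact Set.indicator_of_notMem hmem _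
    simp only [h0, lintegral_zero]
    exact zero_le

/-- the other part -/
lemma part2 (h1 : PT_S) (h2 : MEAS_S) {p n K : ℕ} (hp : 2 ≤ p) (hn : 2 ≤ n)
    (hpn : p < n ^ 2) :
    JJ p n K (ss p n) ≤ JJ p n K (ph p n) +
      ∫⁻ q in P2 p n K, ENNReal.ofReal (ss p n |q.1|) := by
  have hAm : MeasurableSet {q : ℝ × ℝ | HH p n K q.1 q.2} := (h2 p n K).1
  have hPm : MeasurableSet (P2 p n K) :=
    (h2 p n (K + 1)).1.diff (measurableSet_le (measurable_snd.abs) measurable_const)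
  have hms : Measurable (fun q : ℝ × ℝ => ENNReal.ofReal (ss p n |q.1|)) :=
    ((measurable_ss p n).comp (measurable_fst.abs)).ennreal_ofReal
  have hmp : Measurable (fun q : ℝ × ℝ => ENNReal.ofReal (ph p n |q.1|)) :=
    ((measurable_ph p n).comp (measurable_fst.abs)).ennreal_ofReal
  unfold JJ
  rw [← lintegral_indicator hAm, ← lintegral_indicator hAm, ← lintegral_indicator hPm,
    Measure.volume_eq_prod, lintegral_prod _ (hms.indicator hAm).aemeasurable,
    lintegral_prod _ (hmp.indicator hAm).aemeasurable,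
    lintegral_prod_symm _ (hms.indicator hPm).aemeasurable,
    ← lintegral_add_left (hmp.indicator hAm).lintegral_prod_right']
  exact lintegral_mono (fun z => section_le h1 h2 hp hn hpn z)

theorem rec (h1 : PT_S) (h2 : MEAS_S) : REC_S := by
  intro p n K hp hn hpn
  have hAm : MeasurableSet {q : ℝ × ℝ | HH p n (K + 1) q.1 q.2} := (h2 p n (K + 1)).1
  have hB : MeasurableSet {q : ℝ × ℝ | |q.2| ≤ 1} :=
    measurableSet_le (measurable_snd.abs) measurable_const
  have hsplit : JJ p n (K + 1) (ss p n) =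
      (∫⁻ q in {q : ℝ × ℝ | HH p n (K + 1) q.1 q.2} ∩ {q : ℝ × ℝ | |q.2| ≤ 1},
        ENNReal.ofReal (ss p n |q.1|)) + ∫⁻ q in P2 p n K, ENNReal.ofReal (ss p n |q.1|) :=
    (lintegral_inter_add_sdiff _ _ hB).symm
  have hbox : ENNReal.ofReal (4 * ∫ y in (1 : ℝ)..MM p n, ss p n y) ≤
      ∫⁻ q in {q : ℝ × ℝ | HH p n (K + 1) q.1 q.2} ∩ {q : ℝ × ℝ | |q.2| ≤ 1},
        ENNReal.ofReal (ss p n |q.1|) := by
    refine (part1 hp hn hpn).trans (lintegral_mono_set ?_)
    rintro q ⟨hq1, hq2, hq3⟩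
    exact ⟨Or.inl ⟨hq1, hq2, hq3⟩, hq3⟩
  rw [hsplit]
  calc JJ p n K (ss p n) + ENNReal.ofReal (4 * ∫ y in (1 : ℝ)..MM p n, ss p n y)
      ≤ (JJ p n K (ph p n) + ∫⁻ q in P2 p n K, ENNReal.ofReal (ss p n |q.1|)) +
        ∫⁻ q in {q : ℝ × ℝ | HH p n (K + 1) q.1 q.2} ∩ {q : ℝ × ℝ | |q.2| ≤ 1},
          ENNReal.ofReal (ss p n |q.1|) := add_le_add (part2 h1 h2 hp hn hpn) hbox
    _ = _ := by ring

end Pool.Agent.Lib.MP_b4205f_al.H23
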